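import Pool.Agent.Q206.PY.Words
import Pool.Agent.Q206.PY.Mon

/-!
# Project MB (helper298): automata in several bases and Pythagorean triples (statements)

Goal (MP_0f91f8_co, hard row, slot 4): if the colour of `n` depends only on the final states of
finite automata reading `n` in finitely many pairwise coprime bases `b_1, ..., b_k`, then there are
arbitrarily large monochromatic Pythagorean triples.

The library of helper206 (`Pool.Agent.Q206.PY.Mon`, `Pool.Agent.Q206.PY.Words`) is used: `IsMin`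
(minimal ideal of a finite monoid) with `IsMin.absorb`, `idem_eq`, `local_group`, `cancel`,
`pow_eq_of_modEq`, `exists_idem_exp`, and `W b g k n` (product of `g` over the `k` lowest digits).
-/

set_option autoImplicit false

namespace Pool.Agent.Q298.MB

open Pool.Agent.Q206.PY

/-- the product of `g` over the base `b` digits of `n`, the lowest digit first -/
def P {M : Type} [Monoid M] (b : ℕ) (g : ℕ → M) (n : ℕ) : M := ((Nat.digits b n).map g).prod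

/-- JOB ALG.  Proof.  For `a = w A u` put `y a = a (z a)^(N-1)`, so `z * y a = (z a)^N` is
idempotent, and `y a * (something)`.  (1) `(z a)^N = (z b)^N =: e` by `idem_eq` with `p = z w`,
`q = u`.  (2) `f := a^N = b^N` by `idem_eq` with `p = w`, `q = u`; `f x = x` for `x` in `w M` and
`x f = x` for `x` in `M u` (absorb).  (3) `(z f)^N = e` again by `idem_eq`, and `f e = f` (both lie
in `M u`).  Hence `f = f e = f (z f)^N = f (z f)^(N-1) z f`, and
`y a = f (y a) = f (z f)^(N-1) z f (y a) = f (z f)^(N-1) (z * y a) = f (z f)^(N-1) e`, which does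
not depend on `a`. -/
def J_ALG : Prop :=
  ∀ (M : Type) [Monoid M] [Finite M] (N : ℕ), 0 < N → (∀ x : M, x ^ N * x ^ N = x ^ N) →
    ∀ w u z A B : M, IsMin w → IsMin u →
      (w * A * u) * (z * (w * A * u)) ^ (N - 1) = (w * B * u) * (z * (w * B * u)) ^ (N - 1)

/-- JOB POW (simultaneous powers).  Proof: the case `k = 0` is trivial.  Otherwise put
`β j = log (b 0) / log (b j)` and consider the vectors `(fract (t * β j))_j`, `t = 0, 1, 2, ...`:
by the infinite pigeonhole principle (boxes of side `ε'`) there are `t < t'`, `t' - t` as large as we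
like, in the same box.  With `e 0 = Λ (t' - t)` and `e j = Λ (⌊t' β j⌋ - ⌊t β j⌋)` one has
`|e j log (b j) - e 0 log (b 0)| <= Λ ε' log (b j)`, and `Y = (b 0)^(e 0)`. -/
def J_POW : Prop :=
  ∀ (k : ℕ) (b : Fin k → ℕ), (∀ j, 2 ≤ b j) → ∀ (Λ H : ℕ) (ε : ℝ), 0 < Λ → 0 < ε →
    ∃ (e : Fin k → ℕ) (Y : ℝ), 0 < Y ∧ ∀ j, Λ ∣ e j ∧ H ≤ e j ∧
      (1 - ε) * Y ≤ (b j : ℝ) ^ (e j) ∧ (b j : ℝ) ^ (e j) ≤ (1 + ε) * Y

/-- JOB TOP (nested intervals).  Proof: by induction over `j` one finds an open interval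
`(α, β)`, `0 < α < β`, and `r j`, `U j` with `U j / b^(r j) <= α` and `β <= (U j + 1) / b^(r j)`
for the treated `j`: for the next `j` choose `r₀` with `2 < (β - α) b^(r₀)`, then `N₀ > 0` with
`α b^(r₀) <= N₀` and `N₀ + 1 <= β b^(r₀)`, `U = N₀ b^l + w`, `r = r₀ + l`, and shrink the interval
to `(U / b^r, (U+1) / b^r)`.  At the end `ξ` is the midpoint. -/
def J_TOP : Prop :=
  ∀ (k : ℕ) (b : Fin k → ℕ), (∀ j, 2 ≤ b j) → ∀ (C : Fin k → ℕ → Prop),
    (∀ j, ∃ l w, w < b j ^ l ∧ ∀ N, 0 < N → C j (N * b j ^ l + w)) →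
    ∃ (ξ : ℝ) (r U : Fin k → ℕ), 0 < ξ ∧ ∀ j, 0 < U j ∧ C j (U j) ∧
      (U j : ℝ) < ξ * (b j : ℝ) ^ (r j) ∧ ξ * (b j : ℝ) ^ (r j) < U j + 1

/-- `n = b^T Q` with `Q ≡ 1 mod b^L` and `Q` close to a power `b^q`, `m ∣ T`, `m ∣ q`, `H ≤ T`. -/
def Mult (b m L H : ℕ) (δ : ℝ) (n : ℕ) : Prop :=
  ∃ T q Q : ℕ, m ∣ T ∧ H ≤ T ∧ m ∣ q ∧ n = b ^ T * Q ∧ Q ≡ 1 [MOD b ^ L] ∧
    |(Q : ℝ) - (b : ℝ) ^ q| < δ * (b : ℝ) ^ q

/-- JOB MUL.  Proof from `J_POW`: take `Λ = m * ∏ j, Nat.totient (b j ^ L)`, `ε` small and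
`n = ∏ l, b l ^ e l`.  For `j` take `T = e j`, `Q = ∏ l ≠ j, b l ^ e l`, `q = (k - 1) * e j`.
`Q ≡ 1` by Euler's theorem (`Nat.ModEq.pow_totient`), and each of the `k - 1` quotients
`b l ^ e l / b j ^ e j` lies between `(1-ε)/(1+ε)` and `(1+ε)/(1-ε)`. -/
def J_MUL : Prop :=
  J_POW → ∀ (k : ℕ) (b : Fin k → ℕ), (∀ j, 2 ≤ b j) →
    (∀ i j, i ≠ j → Nat.Coprime (b i) (b j)) → ∀ (m L H : ℕ) (δ : ℝ), 0 < m → 0 < δ →
    ∃ n : ℕ, 0 < n ∧ ∀ j, Mult (b j) m L H δ n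

/-- `c = b^α c'` with `c' ≡ W mod b^L` and `c'` close to `ξ b^s`, `m ∣ α`, `m ∣ s`, `H ≤ s`. -/
def Good (b m L H W : ℕ) (ξ δ : ℝ) (c : ℕ) : Prop :=
  ∃ α s c' : ℕ, m ∣ α ∧ m ∣ s ∧ H ≤ s ∧ c = b ^ α * c' ∧ c' ≡ W [MOD b ^ L] ∧
    |(c' : ℝ) - ξ * (b : ℝ) ^ s| < δ * (b : ℝ) ^ s

/-- JOB TRI (the triple).  Proof.  Let `a` be a multiple of `m` and of all `totient (b j ^ L)`,
`a ≥ L`, `B = ∏ j, b j ^ a`, `D = ∏ j, b j ^ L`.  The triple is `κ` times
`(4 n B, 4 n^2 - B^2, 4 n^2 + B^2)` with `n ≡ 1 mod D`.  Modulo `b j ^ L` the last two are `4`, and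
`4 n B = b j ^ a * (4 n ∏ l ≠ j, b l ^ a)` where the second factor is `4` as well; by the Chinese
remainder theorem `κ` may be taken `≡ W j / 4` modulo all `b j ^ L` (pairwise coprime).
Size: by `J_POW` (with `Λ = m`) there are `i j` and `V`, arbitrarily large, with
`b j ^ i j ≈ V`; `n` is chosen `≡ 1 mod D` with `n ≈ B V` (error at most `D`), so that
`4 n B / (4 n^2 + B^2) ≈ 1 / V` and `(4 n^2 - B^2) / (4 n^2 + B^2) ≈ 1` (relative errors
`O((B/n)^2)`).  Then `J_POW` again: `b j ^ e j ≈ Y`, `Y` much larger than everything before, and `κ`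
in its class modulo `D` with `κ (4 n^2 + B^2) ≈ ξ Y`.  Then in base `b j`: for `z` and `y` take
`α = 0`, `s = e j`; for `x` take `α = a`, `s = e j - i j - a`. -/
def J_TRI : Prop :=
  J_POW → ∀ (k : ℕ) (b : Fin k → ℕ), 0 < k → (∀ j, 2 ≤ b j) →
    (∀ i j, i ≠ j → Nat.Coprime (b i) (b j)) →
    ∀ (m L H K : ℕ) (W : Fin k → ℕ) (ξ δ : ℝ), 0 < m → (∀ j, 4 ∣ W j) → 0 < ξ → 0 < δ →
    ∃ x y z : ℕ, K < x ∧ K < y ∧ K < z ∧ x ^ 2 + y ^ 2 = z ^ 2 ∧
      ∀ j, Good (b j) m L H (W j) ξ δ x ∧ Good (b j) m L H (W j) ξ δ y ∧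
        Good (b j) m L H (W j) ξ δ z

/-- JOB SUM (adding blocks).  Proof.  (0) The matrix `(A j i)` takes finitely many values, so
there is one value that occurs for every threshold `H` (otherwise take the maximum of the
thresholds).  Put `τ j i = w j * A j i * u j`, `ζ j = g j 0`, `z j = ζ j ^ E j` where
`E j ≥ N`, `E j + ρ j ≡ 0 mod N`.  (1) By induction on `r` there is `S > 0` with, for all `j`, `i`,
`P (c i * S) = ζ^N τ (z τ)^r` and `(digits (c i * S)).length ≡ ρ j mod N`.  Start: `S = n` with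
`T ≥ N`, as `digits (b^T N') = replicate T 0 ++ digits N'`, `ζ^T = ζ^N` (`pow_eq_of_modEq`).  Step:
take `n` with `T ≥ N + ` all lengths of `c i * S`; `c i * (S + n) = c i * S + b^T N'`, its digits
are `digits (c i S) ++ replicate (T - length) 0 ++ digits N'`
(`Nat.digits_append_zeroes_append_digits`), and `ζ^(T - length) = z` by `pow_eq_of_modEq`.
(2) For `r = N - 1` the product is the same for all `i` by `J_ALG`. -/
def J_SUM : Prop :=
  J_ALG → ∀ (k : ℕ) (b : Fin k → ℕ), (∀ j, 2 ≤ b j) → ∀ (M : Fin k → Type) [∀ j, Monoid (M j)]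
    [∀ j, Finite (M j)] (g : ∀ j, ℕ → M j) (N : ℕ), 0 < N →
    (∀ j (x : M j), x ^ N * x ^ N = x ^ N) → ∀ (w u : ∀ j, M j), (∀ j, IsMin (w j)) →
    (∀ j, IsMin (u j)) → ∀ (ρ : Fin k → ℕ) (c : Fin 3 → ℕ), (∀ i, 0 < c i) →
    (∀ H : ℕ, ∃ n : ℕ, 0 < n ∧ ∀ j i, ∃ (T N' : ℕ) (A : M j), N ∣ T ∧ H ≤ T ∧
      c i * n = b j ^ T * N' ∧ (Nat.digits (b j) N').length ≡ ρ j [MOD N] ∧
      P (b j) (g j) N' = w j * A * u j) →
    ∃ n : ℕ, 0 < n ∧ ∀ j i i', P (b j) (g j) (c i * n) = P (b j) (g j) (c i' * n)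

end Pool.Agent.Q298.MB
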